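import Mathlib

/-!
# Continuity from the order of Hausdorff approximation
-/

open Filter Topology MeasureTheory Set
open scoped ENNReal NNReal Nat

noncomputable section

namespace Pool.Agent.Results.MP_fbd0a7_an.ContinuityConstants

/-- `S(f;x) = lim_{δ → 0} sup {f(t) : |t - x| < δ}` -/
def upper (f : ℝ → ℝ) (x : ℝ) : ℝ := ⨅ δ : Ioi (0 : ℝ), ⨆ t : Metric.ball x (δ : ℝ), f t

/-- `I(f;x) = lim_{δ → 0} inf {f(t) : |t - x| < δ}` -/
def lower (f : ℝ → ℝ) (x : ℝ) : ℝ := ⨆ δ : Ioi (0 : ℝ), ⨅ t : Metric.ball x (δ : ℝ), f t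

/-- The completed graph. -/
def cgraph (f : ℝ → ℝ) : Set (ℝ × ℝ) := {A | lower f A.1 ≤ A.2 ∧ A.2 ≤ upper f A.1}

/-- `ρ_α(A, B)` -/
def rho (α : ℝ) (A B : ℝ × ℝ) : ℝ := max (α⁻¹ * |A.1 - B.1|) |A.2 - B.2|

/-- The Hausdorff distance with parameter `α`. -/
def rDist (α : ℝ) (f g : ℝ → ℝ) : ℝ≥0∞ :=
  max (⨆ A ∈ cgraph f, ⨅ B ∈ cgraph g, ENNReal.ofReal (rho α A B))
    (⨆ A ∈ cgraph g, ⨅ B ∈ cgraph f, ENNReal.ofReal (rho α A B))

/-- bounded functions -/
def Bdd (f : ℝ → ℝ) : Prop := ∃ M : ℝ, ∀ x, |f x| ≤ M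

/-! ### Upper and lower envelopes -/

section Env

variable {f : ℝ → ℝ} {M : ℝ}

lemma bddAbove_ball (hM : ∀ x, |f x| ≤ M) (x δ : ℝ) :
    BddAbove (range fun t : Metric.ball x δ => f t) :=
  ⟨M, by rintro _ ⟨t, rfl⟩; exact (abs_le.mp (hM t)).2⟩

lemma bddBelow_ball (hM : ∀ x, |f x| ≤ M) (x δ : ℝ) :
    BddBelow (range fun t : Metric.ball x δ => f t) :=
  ⟨-M, by rintro _ ⟨t, rfl⟩; exact (abs_le.mp (hM t)).1⟩

lemma le_iSup_ball (hM : ∀ x, |f x| ≤ M) {x t δ : ℝ} (h : |t - x| < δ) :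
    f t ≤ ⨆ t : Metric.ball x δ, f t :=
  le_ciSup (bddAbove_ball hM x δ) (⟨t, by rwa [Metric.mem_ball, Real.dist_eq]⟩ : Metric.ball x δ)

lemma iInf_ball_le (hM : ∀ x, |f x| ≤ M) {x t δ : ℝ} (h : |t - x| < δ) :
    ⨅ t : Metric.ball x δ, f t ≤ f t :=
  ciInf_le (bddBelow_ball hM x δ) (⟨t, by rwa [Metric.mem_ball, Real.dist_eq]⟩ : Metric.ball x δ)

instance : Nonempty (Ioi (0 : ℝ)) := ⟨⟨1, mem_Ioi.mpr one_pos⟩⟩

lemma le_upper (hM : ∀ x, |f x| ≤ M) (x : ℝ) : f x ≤ upper f x := by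
  unfold upper
  apply le_ciInf
  intro δ
  apply le_iSup_ball hM
  rw [sub_self, abs_zero]
  exact δ.2

lemma lower_le (hM : ∀ x, |f x| ≤ M) (x : ℝ) : lower f x ≤ f x := by
  unfold lower
  apply ciSup_le
  intro δ
  apply iInf_ball_le hM
  rw [sub_self, abs_zero]
  exact δ.2

lemma upper_spec1 (hM : ∀ x, |f x| ≤ M) {a x δ : ℝ} (hδ : 0 < δ) (h : a < upper f x) :
    ∃ t, |t - x| < δ ∧ a < f t := by
  have h1 : upper f x ≤ ⨆ t : Metric.ball x δ, f t := by
    apply ciInf_le _ (⟨δ, hδ⟩ : Ioi (0 : ℝ))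
    refine ⟨-M, ?_⟩
    rintro _ ⟨δ', rfl⟩
    refine le_trans (abs_le.mp (hM x)).1 ?_
    apply le_iSup_ball hM
    rw [sub_self, abs_zero]
    exact δ'.2
  have : Nonempty (Metric.ball x δ) := ⟨⟨x, Metric.mem_ball_self hδ⟩⟩
  obtain ⟨t, ht⟩ := exists_lt_of_lt_ciSup (lt_of_lt_of_le h h1)
  exact ⟨t, by rw [← Real.dist_eq]; exact t.2, ht⟩

lemma lower_spec1 (hM : ∀ x, |f x| ≤ M) {a x δ : ℝ} (hδ : 0 < δ) (h : lower f x < a) :
    ∃ t, |t - x| < δ ∧ f t < a := by
  have h1 : ⨅ t : Metric.ball x δ, f t ≤ lower f x := by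
    apply le_ciSup (f := fun δ : Ioi (0 : ℝ) => ⨅ t : Metric.ball x (δ : ℝ), f t) _
      (⟨δ, hδ⟩ : Ioi (0 : ℝ))
    refine ⟨M, ?_⟩
    rintro _ ⟨δ', rfl⟩
    refine le_trans ?_ (abs_le.mp (hM x)).2
    apply iInf_ball_le hM
    rw [sub_self, abs_zero]
    exact δ'.2
  have : Nonempty (Metric.ball x δ) := ⟨⟨x, Metric.mem_ball_self hδ⟩⟩
  obtain ⟨t, ht⟩ := exists_lt_of_ciInf_lt (lt_of_le_of_lt h1 h)
  exact ⟨t, by rw [← Real.dist_eq]; exact t.2, ht⟩

lemma upper_spec2 (hM : ∀ x, |f x| ≤ M) {a x : ℝ} (h : upper f x < a) :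
    ∃ δ > 0, ∀ t, |t - x| < δ → f t < a := by
  obtain ⟨δ, hδ⟩ := exists_lt_of_ciInf_lt h
  exact ⟨δ, δ.2, fun t ht => (le_iSup_ball hM ht).trans_lt hδ⟩

lemma lower_spec2 (hM : ∀ x, |f x| ≤ M) {a x : ℝ} (h : a < lower f x) :
    ∃ δ > 0, ∀ t, |t - x| < δ → a < f t := by
  obtain ⟨δ, hδ⟩ := exists_lt_of_lt_ciSup h
  exact ⟨δ, δ.2, fun t ht => hδ.trans_le (iInf_ball_le hM ht)⟩

lemma exists_gap (hM : ∀ x, |f x| ≤ M) (h : ¬ Continuous f) : ∃ x, lower f x < upper f x := by
  by_contra hcon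
  push Not at hcon
  apply h
  rw [Metric.continuous_iff]
  intro x ε hε
  have h1 : upper f x < f x + ε := by linarith [hcon x, lower_le hM x]
  have h2 : f x - ε < lower f x := by linarith [hcon x, le_upper hM x]
  obtain ⟨δ1, hδ1, h1'⟩ := upper_spec2 hM h1
  obtain ⟨δ2, hδ2, h2'⟩ := lower_spec2 hM h2
  refine ⟨min δ1 δ2, lt_min hδ1 hδ2, ?_⟩
  intro t ht
  rw [Real.dist_eq] at ht ⊢
  rw [abs_lt]
  have := h1' t (ht.trans_le (min_le_left _ _))
  have := h2' t (ht.trans_le (min_le_right _ _))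
  constructor <;> linarith

lemma abs_upper_le (hM : ∀ x, |f x| ≤ M) (x : ℝ) : |upper f x| ≤ M := by
  rw [abs_le]
  refine ⟨(abs_le.mp (hM x)).1.trans (le_upper hM x), ?_⟩
  by_contra hcon
  push Not at hcon
  obtain ⟨t, _, ht⟩ := upper_spec1 hM one_pos hcon
  exact absurd ht (not_lt.mpr (abs_le.mp (hM t)).2)

lemma abs_lower_le (hM : ∀ x, |f x| ≤ M) (x : ℝ) : |lower f x| ≤ M := by
  rw [abs_le]
  refine ⟨?_, (lower_le hM x).trans (abs_le.mp (hM x)).2⟩
  by_contra hcon
  push Not at hcon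
  obtain ⟨t, _, ht⟩ := lower_spec1 hM one_pos hcon
  exact absurd ht (not_lt.mpr (abs_le.mp (hM t)).1)

end Env

/-! ### The main estimate -/

lemma sub_est {h K : ℝ → ℝ} {N Mb : ℝ} (hh : AEMeasurable h) (hb : ∀ u, |h u| ≤ Mb)
    (hN : ∀ u, -N ≤ h u) (hK0 : ∀ t, 0 ≤ K t) (hKi : Integrable K) {x ξ s δ κ C : ℝ}
    (hs : 0 < s) (hξ : |ξ - x| ≤ C * s) (hδ : (C + 1) * s < δ / 2)
    (hh0 : ∀ u, |u - x| < δ → 0 ≤ h u) (hlow : ∀ t, |t| ≤ (C + 1) * s → κ / s ≤ K t) :
    (κ / s) * ∫ u in Icc x (x + s), h u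
      ≤ (∫ t, h (ξ - t) * K t) + N * ∫ t in {t | δ / 2 ≤ |t|}, K t := by
  have hmeas : AEMeasurable (fun t => h (ξ - t)) :=
    hh.comp_quasiMeasurePreserving (Measure.measurePreserving_sub_left volume ξ).quasiMeasurePreserving
  have hF : Integrable fun t => h (ξ - t) * K t :=
    hKi.bdd_mul (c := Mb) hmeas.aestronglyMeasurable (ae_of_all _ fun t => by
      rw [Real.norm_eq_abs]; exact hb _)
  have hT : MeasurableSet {t : ℝ | δ / 2 ≤ |t|} :=
    measurableSet_le measurable_const continuous_abs.measurable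
  have hG : Integrable fun t => N * ({t : ℝ | δ / 2 ≤ |t|}.indicator K t) :=
    (hKi.indicator hT).const_mul N
  have hH0 : IntegrableOn h (Icc x (x + s)) :=
    Measure.integrableOn_of_bounded (M := Mb) (by simp) hh.aestronglyMeasurable
      (ae_of_all _ fun u => by rw [Real.norm_eq_abs]; exact hb u)
  have hH1 : Integrable (indicator (Icc x (x + s)) h) := (integrable_indicator_iff measurableSet_Icc).mpr hH0
  have hH : Integrable fun t => (κ / s) * (indicator (Icc x (x + s)) h (ξ - t)) :=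
    (hH1.comp_sub_left ξ).const_mul _
  have e1 : (κ / s) * ∫ u in Icc x (x + s), h u
      = ∫ t, (κ / s) * (indicator (Icc x (x + s)) h (ξ - t)) := by
    rw [integral_const_mul, integral_sub_left_eq_self (fun u => indicator (Icc x (x + s)) h u) volume ξ,
      integral_indicator measurableSet_Icc]
  have e2 : (∫ t, h (ξ - t) * K t) + N * ∫ t in {t | δ / 2 ≤ |t|}, K t
      = ∫ t, (h (ξ - t) * K t + N * ({t : ℝ | δ / 2 ≤ |t|}.indicator K t)) := by
    rw [integral_add hF hG, integral_const_mul, integral_indicator hT]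
  rw [e1, e2]
  apply integral_mono hH (hF.add hG)
  intro t
  simp only [Pi.add_apply]
  have hξ' := abs_le.mp hξ
  by_cases h1 : ξ - t ∈ Icc x (x + s)
  · have ht : |t| ≤ (C + 1) * s := by
      rw [abs_le]
      constructor <;> nlinarith [h1.1, h1.2]
    have ht2 : t ∉ {t : ℝ | δ / 2 ≤ |t|} := by
      intro h2
      have : δ / 2 ≤ |t| := h2
      linarith
    rw [indicator_of_mem h1, indicator_of_notMem ht2, mul_zero, add_zero, mul_comm]
    apply mul_le_mul_of_nonneg_left (hlow t ht)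
    apply hh0
    rw [abs_lt]
    constructor <;> nlinarith [h1.1, h1.2]
  · rw [indicator_of_notMem h1, mul_zero]
    by_cases h2 : δ / 2 ≤ |t|
    · rw [indicator_of_mem (show t ∈ {t : ℝ | δ / 2 ≤ |t|} from h2)]
      nlinarith [hN (ξ - t), hK0 t]
    · rw [indicator_of_notMem (show t ∉ {t : ℝ | δ / 2 ≤ |t|} from h2), mul_zero, add_zero]
      apply mul_nonneg _ (hK0 t)
      apply hh0
      push Not at h2
      have h2' := abs_lt.mp h2
      rw [abs_lt]
      constructor <;> nlinarith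

theorem key {ι : Type*} {l : Filter ι} [l.NeBot] {α : ℝ} (hα : 0 < α) {f : ℝ → ℝ} {M : ℝ}
    (hM : ∀ x, |f x| ≤ M) (hf : AEMeasurable f) (K : ι → ℝ → ℝ) (s : ι → ℝ)
    (hs0 : ∀ᶠ j in l, 0 < s j) (hs : Tendsto s l (𝓝 0))
    (hK0 : ∀ᶠ j in l, ∀ t, 0 ≤ K j t) (hKi : ∀ᶠ j in l, Integrable (K j))
    (hK1 : ∀ᶠ j in l, ∫ t, K j t = 1)
    (htail : ∀ δ : ℝ, 0 < δ → Tendsto (fun j => ∫ t in {t | δ ≤ |t|}, K j t) l (𝓝 0))
    (hlow : ∀ C : ℝ, 0 < C → ∃ κ : ℝ, 0 < κ ∧ ∀ᶠ j in l, ∀ t, |t| ≤ C * s j → κ / s j ≤ K j t)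
    (g : ι → ℝ → ℝ) (hg : ∀ᶠ j in l, ∀ x, g j x = ∫ t, f (x - t) * K j t)
    (hr : limsup (fun j => ENNReal.ofReal (α / s j) * rDist α f (g j)) l < ⊤) :
    Continuous f := by
  by_contra hcon
  obtain ⟨x, hx⟩ := exists_gap hM hcon
  set S := upper f x with hS
  set I := lower f x with hI
  have hd : 0 < S - I := sub_pos.mpr hx
  have hM0 : 0 ≤ M := (abs_nonneg _).trans (hM 0)
  have hSM := abs_le.mp (abs_upper_le hM x)
  have hIM := abs_le.mp (abs_lower_le hM x)
  rw [← hS] at hSM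
  rw [← hI] at hIM
  obtain ⟨b, hb1, -⟩ := ENNReal.lt_iff_exists_nnreal_btwn.mp hr
  have hev := eventually_lt_of_limsup_lt hb1
  obtain ⟨κ, hκ, hlow'⟩ := hlow ((b : ℝ) + 2) (by positivity)
  set ε := κ * (S - I) / 8 with hε
  have hε0 : 0 < ε := by positivity
  obtain ⟨δ1, hδ1, hf1⟩ := upper_spec2 hM (show upper f x < S + ε by rw [← hS]; linarith)
  obtain ⟨δ2, hδ2, hf2⟩ := lower_spec2 hM (show I - ε < lower f x by rw [← hI]; linarith)
  set δ := min δ1 δ2 with hδ
  have hδ0 : 0 < δ := lt_min hδ1 hδ2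
  -- eventual conditions
  have ev1 : ∀ᶠ j in l, ((b : ℝ) + 2) * s j < δ / 2 := by
    have : Tendsto (fun j => ((b : ℝ) + 2) * s j) l (𝓝 (((b : ℝ) + 2) * 0)) := hs.const_mul _
    rw [mul_zero] at this
    exact this.eventually_lt_const (by positivity)
  have ev2 : ∀ᶠ j in l, 2 * ((b : ℝ) * s j / α) < ε := by
    have : Tendsto (fun j => 2 * ((b : ℝ) * s j / α)) l (𝓝 (2 * ((b : ℝ) * 0 / α))) :=
      ((hs.const_mul _).div_const _).const_mul _
    rw [mul_zero, zero_div, mul_zero] at this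
    exact this.eventually_lt_const hε0
  have ev3 : ∀ᶠ j in l, 2 * ((2 * M + ε) * ∫ t in {t | δ / 2 ≤ |t|}, K j t) < ε := by
    have : Tendsto (fun j => 2 * ((2 * M + ε) * ∫ t in {t | δ / 2 ≤ |t|}, K j t)) l
        (𝓝 (2 * ((2 * M + ε) * 0))) := ((htail (δ / 2) (by positivity)).const_mul _).const_mul _
    rw [mul_zero, mul_zero] at this
    exact this.eventually_lt_const hε0
  obtain ⟨j, hj, hsj, hKj0, hKji, hKj1, hlowj, hgj, e1, e2, e3⟩ :=
    (hev.and (hs0.and (hK0.and (hKi.and (hK1.and (hlow'.and (hg.and (ev1.and (ev2.and ev3))))))))).exists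
  have hgM : ∀ y, |g j y| ≤ M := by
    intro y
    rw [hgj y, ← Real.norm_eq_abs]
    have hmeas : AEMeasurable (fun t => f (y - t)) :=
      hf.comp_quasiMeasurePreserving (Measure.measurePreserving_sub_left volume y).quasiMeasurePreserving
    calc ‖∫ t, f (y - t) * K j t‖ ≤ ∫ t, M * K j t := by
          apply norm_integral_le_of_norm_le (hKji.const_mul M)
          refine ae_of_all _ fun t => ?_
          rw [norm_mul, Real.norm_eq_abs, Real.norm_eq_abs, abs_of_nonneg (hKj0 t)]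
          exact mul_le_mul_of_nonneg_right (hM _) (hKj0 t)
      _ = M := by rw [integral_const_mul, hKj1, mul_one]
  -- points of the completed graph of `g j`
  have hpt : ∀ A ∈ cgraph f, ∃ B ∈ cgraph (g j), rho α A B < b * s j / α := by
    intro A hA
    by_contra hcon2
    push Not at hcon2
    have h1 : ENNReal.ofReal (b * s j / α) ≤ rDist α f (g j) := by
      unfold rDist
      refine le_trans ?_ (le_max_left _ _)
      refine le_trans ?_ (le_iSup₂ (f := fun A _ => ⨅ B ∈ cgraph (g j), ENNReal.ofReal (rho α A B)) A hA)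
      exact le_iInf₂ fun B hB => ENNReal.ofReal_le_ofReal (hcon2 B hB)
    have h2 : (b : ℝ≥0∞) ≤ ENNReal.ofReal (α / s j) * rDist α f (g j) := by
      calc (b : ℝ≥0∞) = ENNReal.ofReal (α / s j) * ENNReal.ofReal (b * s j / α) := by
            rw [← ENNReal.ofReal_mul (by positivity)]
            have : α / s j * (b * s j / α) = (b : ℝ) := by field_simp
            rw [this, ENNReal.ofReal_coe_nnreal]
        _ ≤ _ := mul_le_mul_right h1 _
    exact absurd hj (not_lt.mpr h2)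
  have hmemS : ((x, S) : ℝ × ℝ) ∈ cgraph f := ⟨hx.le, le_refl _⟩
  have hmemI : ((x, I) : ℝ × ℝ) ∈ cgraph f := ⟨le_refl _, hx.le⟩
  have hbα : ∀ a : ℝ, α⁻¹ * a < b * s j / α → a < b * s j := by
    intro a ha
    have h1 : α⁻¹ * a = a / α := by ring
    rw [h1] at ha
    exact (div_lt_div_iff_of_pos_right hα).mp ha
  obtain ⟨ξ, hξ1, hξ2⟩ : ∃ ξ, |ξ - x| ≤ (b + 1) * s j ∧ S - b * s j / α < g j ξ := by
    obtain ⟨B, hB, hρ⟩ := hpt _ hmemS
    have h1 := lt_of_le_of_lt (le_max_left _ _) hρ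
    have h2 := lt_of_le_of_lt (le_max_right _ _) hρ
    simp only at h1 h2
    have h3 : S - b * s j / α < upper (g j) B.1 := by
      have := (abs_lt.mp h2).2
      linarith [hB.2]
    obtain ⟨ξ, hξ, hξ'⟩ := upper_spec1 hgM hsj h3
    refine ⟨ξ, ?_, hξ'⟩
    have h4 := abs_lt.mp (hbα _ h1)
    have h5 := abs_lt.mp hξ
    rw [abs_le]
    constructor <;> nlinarith [h4.1, h4.2, h5.1, h5.2]
  obtain ⟨ξ', hξ1', hξ2'⟩ : ∃ ξ, |ξ - x| ≤ (b + 1) * s j ∧ g j ξ < I + b * s j / α := by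
    obtain ⟨B, hB, hρ⟩ := hpt _ hmemI
    have h1 := lt_of_le_of_lt (le_max_left _ _) hρ
    have h2 := lt_of_le_of_lt (le_max_right _ _) hρ
    simp only at h1 h2
    have h3 : lower (g j) B.1 < I + b * s j / α := by
      have := (abs_lt.mp h2).1
      linarith [hB.1]
    obtain ⟨ξ, hξ, hξ'⟩ := lower_spec1 hgM hsj h3
    refine ⟨ξ, ?_, hξ'⟩
    have h4 := abs_lt.mp (hbα _ h1)
    have h5 := abs_lt.mp hξ
    rw [abs_le]
    constructor <;> nlinarith [h4.1, h4.2, h5.1, h5.2]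
  have hC : ((b : ℝ) + 1 + 1) = (b : ℝ) + 2 := by ring
  have hint : ∀ y, Integrable fun t => f (y - t) * K j t := by
    intro y
    have hmeas : AEMeasurable (fun t => f (y - t)) :=
      hf.comp_quasiMeasurePreserving (Measure.measurePreserving_sub_left volume y).quasiMeasurePreserving
    exact hKji.bdd_mul (c := M) hmeas.aestronglyMeasurable (ae_of_all _ fun t => by
      rw [Real.norm_eq_abs]; exact hM _)
  have hfo : IntegrableOn f (Icc x (x + s j)) :=
    Measure.integrableOn_of_bounded (M := M) (by simp) hf.aestronglyMeasurable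
      (ae_of_all _ fun u => by rw [Real.norm_eq_abs]; exact hM u)
  have A1 := sub_est (h := fun u => S + ε - f u) (K := K j) (N := 2 * M + ε) (Mb := 2 * M + ε)
    (hf.const_sub _) (fun u => by
      have := abs_le.mp (hM u)
      rw [abs_le]; constructor <;> linarith [hSM.1, hSM.2])
    (fun u => by have := abs_le.mp (hM u); linarith [hSM.1]) hKj0 hKji
    (x := x) (ξ := ξ) (s := s j) (δ := δ) (κ := κ) (C := b + 1) hsj hξ1 (by rw [hC]; exact e1)
    (fun u hu => by
      have := hf1 u (hu.trans_le (min_le_left _ _))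
      linarith) (by rw [hC]; exact hlowj)
  have A2 := sub_est (h := fun u => f u - (I - ε)) (K := K j) (N := 2 * M + ε) (Mb := 2 * M + ε)
    (hf.sub_const _) (fun u => by
      have := abs_le.mp (hM u)
      rw [abs_le]; constructor <;> linarith [hIM.1, hIM.2])
    (fun u => by have := abs_le.mp (hM u); linarith [hIM.2]) hKj0 hKji
    (x := x) (ξ := ξ') (s := s j) (δ := δ) (κ := κ) (C := b + 1) hsj hξ1' (by rw [hC]; exact e1)
    (fun u hu => by
      have := hf2 u (hu.trans_le (min_le_right _ _))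
      linarith) (by rw [hC]; exact hlowj)
  have B1 : ∫ t, (S + ε - f (ξ - t)) * K j t = S + ε - g j ξ := by
    have : ∀ t, (S + ε - f (ξ - t)) * K j t = (S + ε) * K j t - f (ξ - t) * K j t := fun t => by ring
    simp_rw [this]
    rw [integral_sub (hKji.const_mul _) (hint ξ), integral_const_mul, hKj1, mul_one, hgj ξ]
  have B2 : ∫ t, (f (ξ' - t) - (I - ε)) * K j t = g j ξ' - (I - ε) := by
    have : ∀ t, (f (ξ' - t) - (I - ε)) * K j t = f (ξ' - t) * K j t - (I - ε) * K j t :=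
      fun t => by ring
    simp_rw [this]
    rw [integral_sub (hint ξ') (hKji.const_mul _), integral_const_mul, hKj1, mul_one, hgj ξ']
  have B3 : (∫ u in Icc x (x + s j), (S + ε - f u)) + ∫ u in Icc x (x + s j), (f u - (I - ε))
      = (S - I + 2 * ε) * s j := by
    have i1 : IntegrableOn (fun u => S + ε - f u) (Icc x (x + s j)) :=
      (integrableOn_const (by simp)).sub hfo
    have i2 : IntegrableOn (fun u => f u - (I - ε)) (Icc x (x + s j)) :=
      hfo.sub (integrableOn_const (by simp))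
    rw [← integral_add i1 i2]
    have : ∀ u, (S + ε - f u) + (f u - (I - ε)) = S - I + 2 * ε := fun u => by ring
    simp_rw [this]
    rw [setIntegral_const]
    simp [hsj.le]
    ring
  rw [B1] at A1
  rw [B2] at A2
  have hsum : κ / s j * ((S - I + 2 * ε) * s j) = κ * (S - I + 2 * ε) := by
    field_simp
  have hfin : κ * (S - I + 2 * ε) ≤ 2 * ε + 2 * (b * s j / α) +
      2 * ((2 * M + ε) * ∫ t in {t | δ / 2 ≤ |t|}, K j t) := by
    rw [← hsum, ← B3, mul_add]
    linarith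
  have hε8 : κ * (S - I) = 8 * ε := by rw [hε]; ring
  nlinarith [mul_pos hκ hε0]

/-! ### The operators -/

/-- Gauss–Weierstrass -/
def W (n : ℕ) (f : ℝ → ℝ) (x : ℝ) : ℝ :=
  √(n / Real.pi) * ∫ t, f t * Real.exp (-n * (t - x) ^ 2)

/-- Abel–Poisson -/
def P (ρ : ℝ) (f : ℝ → ℝ) (x : ℝ) : ℝ :=
  1 / (2 * Real.pi) * ∫ t in (-Real.pi)..Real.pi,
    f (x - t) * ((1 - ρ ^ 2) / (1 - 2 * ρ * Real.cos t + ρ ^ 2))

/-- de la Vallée-Poussin -/
def V (n : ℕ) (f : ℝ → ℝ) (x : ℝ) : ℝ :=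
  ((n ! : ℝ) ^ 2 / (2 * Real.pi * (2 * n)!)) * ∫ t in (-Real.pi)..Real.pi,
    f (x - t) * (2 * Real.cos (t / 2)) ^ (2 * n)

/-! ### Gauss–Weierstrass -/

section Gauss

def KW (n : ℕ) (t : ℝ) : ℝ := √(n / Real.pi) * Real.exp (-n * t ^ 2)

lemma W_eq (n : ℕ) (f : ℝ → ℝ) (x : ℝ) : W n f x = ∫ t, f (x - t) * KW n t := by
  unfold W KW
  rw [← integral_const_mul,
    ← integral_sub_left_eq_self (fun t => √(n / Real.pi) * (f t * Real.exp (-n * (t - x) ^ 2))) volume x]
  apply integral_congr_ae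
  refine ae_of_all _ fun t => ?_
  simp only
  have : (x - t - x) ^ 2 = t ^ 2 := by ring
  rw [this]
  ring

lemma KW_int {n : ℕ} (hn : 0 < n) : Integrable (KW n) := by
  unfold KW
  apply Integrable.const_mul
  exact integrable_exp_neg_mul_sq (by exact_mod_cast hn)

lemma KW_mass {n : ℕ} (hn : 0 < n) : ∫ t, KW n t = 1 := by
  have hn' : (0 : ℝ) < n := by exact_mod_cast hn
  unfold KW
  rw [integral_const_mul, integral_gaussian, ← Real.sqrt_mul (by positivity)]
  have : (n : ℝ) / Real.pi * (Real.pi / n) = 1 := by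
    field_simp
  rw [this, Real.sqrt_one]

lemma KW_tail {δ : ℝ} (hδ : 0 < δ) :
    Tendsto (fun n : ℕ => ∫ t in {t | δ ≤ |t|}, KW n t) atTop (𝓝 0) := by
  have hlim : Tendsto (fun n : ℕ => √2 * Real.exp (-(n * (δ ^ 2 / 2)))) atTop (𝓝 (√2 * 0)) := by
    apply Tendsto.const_mul
    apply Real.tendsto_exp_neg_atTop_nhds_zero.comp
    exact tendsto_natCast_atTop_atTop.atTop_mul_const (by positivity)
  rw [mul_zero] at hlim
  apply squeeze_zero' (eventually_of_mem (Ioi_mem_atTop 0) _)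
    (eventually_of_mem (Ioi_mem_atTop 0) _) hlim
  · intro n _
    exact integral_nonneg fun t => by unfold KW; positivity
  · intro n hn
    have hn' : (0 : ℝ) < n := by exact_mod_cast hn
    have hT : MeasurableSet {t : ℝ | δ ≤ |t|} :=
      measurableSet_le measurable_const continuous_abs.measurable
    have hG : Integrable fun t : ℝ => √(n / Real.pi) * Real.exp (-(n * (δ ^ 2 / 2))) *
        Real.exp (-(n / 2) * t ^ 2) :=
      (integrable_exp_neg_mul_sq (by positivity)).const_mul _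
    calc ∫ t in {t | δ ≤ |t|}, KW n t
        ≤ ∫ t in {t | δ ≤ |t|}, √(n / Real.pi) * Real.exp (-(n * (δ ^ 2 / 2))) *
            Real.exp (-(n / 2) * t ^ 2) := by
          apply setIntegral_mono_on (KW_int hn).integrableOn hG.integrableOn hT
          intro t ht
          unfold KW
          rw [mul_assoc, ← Real.exp_add]
          apply mul_le_mul_of_nonneg_left _ (Real.sqrt_nonneg _)
          apply Real.exp_le_exp.mpr
          have h1 : δ ≤ |t| := ht
          have h2 : δ ^ 2 ≤ t ^ 2 := by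
            rw [← sq_abs t]
            exact pow_le_pow_left₀ hδ.le h1 2
          nlinarith
      _ ≤ ∫ t, √(n / Real.pi) * Real.exp (-(n * (δ ^ 2 / 2))) * Real.exp (-(n / 2) * t ^ 2) :=
          setIntegral_le_integral hG (ae_of_all _ fun t => by positivity)
      _ = √2 * Real.exp (-(n * (δ ^ 2 / 2))) := by
          rw [integral_const_mul, integral_gaussian]
          have : √(n / Real.pi) * Real.exp (-(n * (δ ^ 2 / 2))) * √(Real.pi / (n / 2))
              = (√(n / Real.pi) * √(Real.pi / (n / 2))) * Real.exp (-(n * (δ ^ 2 / 2))) := by ring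
          rw [this, ← Real.sqrt_mul (by positivity)]
          congr 2
          field_simp

lemma KW_low {C : ℝ} {n : ℕ} (hn : 0 < n) {t : ℝ} (ht : |t| ≤ C * (√n)⁻¹) :
    (√(1 / Real.pi) * Real.exp (-C ^ 2)) / (√n)⁻¹ ≤ KW n t := by
  have hn' : (0 : ℝ) < n := by exact_mod_cast hn
  have hs : 0 < √(n : ℝ) := Real.sqrt_pos.mpr hn'
  unfold KW
  have h1 : √((n : ℝ) / Real.pi) = √n * √(1 / Real.pi) := by
    rw [← Real.sqrt_mul hn'.le]
    congr 1
    ring
  have h2 : n * t ^ 2 ≤ C ^ 2 := by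
    have h3 : t ^ 2 ≤ (C * (√n)⁻¹) ^ 2 := by
      rw [← sq_abs t]
      exact pow_le_pow_left₀ (abs_nonneg _) ht 2
    calc n * t ^ 2 ≤ n * (C * (√n)⁻¹) ^ 2 := mul_le_mul_of_nonneg_left h3 hn'.le
      _ = C ^ 2 := by
        rw [mul_pow, inv_pow, Real.sq_sqrt hn'.le]
        field_simp
  rw [h1, div_inv_eq_mul]
  calc √(1 / Real.pi) * Real.exp (-C ^ 2) * √n = √n * √(1 / Real.pi) * Real.exp (-C ^ 2) := by ring
    _ ≤ √n * √(1 / Real.pi) * Real.exp (-n * t ^ 2) := by
      apply mul_le_mul_of_nonneg_left _ (by positivity)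
      apply Real.exp_le_exp.mpr
      linarith

theorem contW {α : ℝ} (hα : 0 < α) {f : ℝ → ℝ} (hb : Bdd f) (hf : AEMeasurable f)
    (hr : limsup (fun n : ℕ => ENNReal.ofReal (α * √n) * rDist α f (W n f)) atTop < ⊤) :
    Continuous f := by
  obtain ⟨M, hM⟩ := hb
  have hpos : ∀ᶠ n : ℕ in atTop, 0 < n := eventually_gt_atTop 0
  refine key (l := (atTop : Filter ℕ)) hα hM hf KW (fun n => (√(n : ℝ))⁻¹) ?_ ?_ ?_ ?_ ?_
    (fun δ hδ => KW_tail hδ) ?_ (fun n => W n f) (Eventually.of_forall fun n x => W_eq n f x) ?_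
  · filter_upwards [hpos] with n hn
    have hn' : (0 : ℝ) < n := by exact_mod_cast hn
    positivity
  · exact tendsto_inv_atTop_zero.comp (Real.tendsto_sqrt_atTop.comp tendsto_natCast_atTop_atTop)
  · exact Eventually.of_forall fun n t => by unfold KW; positivity
  · filter_upwards [hpos] with n hn using KW_int hn
  · filter_upwards [hpos] with n hn using KW_mass hn
  · intro C hC
    refine ⟨√(1 / Real.pi) * Real.exp (-C ^ 2), by positivity, ?_⟩
    filter_upwards [hpos] with n hn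
    intro t ht
    exact KW_low hn ht
  · refine lt_of_le_of_lt (le_of_eq ?_) hr
    congr 1
    funext n
    rw [div_inv_eq_mul]

end Gauss

/-! ### Abel–Poisson -/

section Poisson

lemma den_pos {ρ : ℝ} (h0 : 0 < ρ) (h1 : ρ < 1) (t : ℝ) : 0 < 1 - 2 * ρ * Real.cos t + ρ ^ 2 := by
  have : 1 - 2 * ρ * Real.cos t + ρ ^ 2 = (1 - ρ) ^ 2 + 2 * ρ * (1 - Real.cos t) := by ring
  rw [this]
  have h2 := Real.cos_le_one t
  have h3 : 0 < (1 - ρ) ^ 2 := by
    have : 0 < 1 - ρ := by linarith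
    positivity
  nlinarith

def kp (ρ t : ℝ) : ℝ := 1 / (2 * Real.pi) * ((1 - ρ ^ 2) / (1 - 2 * ρ * Real.cos t + ρ ^ 2))

def KP (ρ : ℝ) : ℝ → ℝ := indicator (Ioc (-Real.pi) Real.pi) (kp ρ)

lemma pi_le : -Real.pi ≤ Real.pi := by linarith [Real.pi_pos]

lemma P_eq (ρ : ℝ) (f : ℝ → ℝ) (x : ℝ) : P ρ f x = ∫ t, f (x - t) * KP ρ t := by
  unfold P KP
  rw [intervalIntegral.integral_of_le pi_le, ← integral_const_mul, ← integral_indicator measurableSet_Ioc]
  apply integral_congr_ae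
  refine ae_of_all _ fun t => ?_
  by_cases ht : t ∈ Ioc (-Real.pi) Real.pi
  · simp only [indicator_of_mem ht]
    unfold kp
    ring
  · simp only [indicator_of_notMem ht, mul_zero]

lemma kp_cont {ρ : ℝ} (h0 : 0 < ρ) (h1 : ρ < 1) : Continuous (kp ρ) := by
  unfold kp
  apply continuous_const.mul
  apply continuous_const.div (by fun_prop)
  exact fun t => (den_pos h0 h1 t).ne'

lemma kp_nonneg {ρ : ℝ} (h0 : 0 < ρ) (h1 : ρ < 1) (t : ℝ) : 0 ≤ kp ρ t := by
  unfold kp
  have h2 := den_pos h0 h1 t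
  have h3 : 0 ≤ 1 - ρ ^ 2 := by nlinarith
  have := Real.pi_pos
  positivity

lemma KP_int {ρ : ℝ} (h0 : 0 < ρ) (h1 : ρ < 1) : Integrable (KP ρ) := by
  unfold KP
  rw [integrable_indicator_iff measurableSet_Ioc]
  exact (kp_cont h0 h1).integrableOn_Ioc

lemma KP_mass {ρ : ℝ} (h0 : 0 < ρ) (h1 : ρ < 1) : ∫ t, KP ρ t = 1 := by
  have hpk := DiffContOnCl.circleAverage_poissonKernel_smul (E := ℂ) (c := 0) (R := 1)
    (f := fun _ : ℂ => (1 : ℂ)) (w := (ρ : ℂ)) diffContOnCl_const (by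
      rw [Metric.mem_ball, dist_zero_right, Complex.norm_real, Real.norm_of_nonneg h0.le]
      exact h1)
  have e1 : ∀ θ : ℝ, poissonKernel 0 (ρ : ℂ) (circleMap 0 1 θ) = 2 * Real.pi * kp ρ θ := by
    intro θ
    have h2 : ‖circleMap 0 1 θ - 0‖ = 1 := by
      rw [sub_zero, norm_circleMap_zero, abs_one]
    have h3 : ‖circleMap 0 1 θ - 0 - ((ρ : ℂ) - 0)‖ ^ 2 = 1 - 2 * ρ * Real.cos θ + ρ ^ 2 := by
      rw [sub_zero, sub_zero, circleMap_zero, Complex.ofReal_one, one_mul, ← Complex.normSq_eq_norm_sq,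
        Complex.normSq_apply]
      simp only [Complex.sub_re, Complex.exp_ofReal_mul_I_re, Complex.ofReal_re, Complex.sub_im,
        Complex.exp_ofReal_mul_I_im, Complex.ofReal_im, sub_zero]
      nlinarith [Real.sin_sq_add_cos_sq θ]
    rw [poissonKernel_def, h2, h3, sub_zero, Complex.norm_real, Real.norm_of_nonneg h0.le]
    unfold kp
    have := Real.pi_pos
    field_simp
  have hper : Function.Periodic (kp ρ) (2 * Real.pi) := by
    intro t
    unfold kp
    rw [Real.cos_add_two_pi]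
  have e2 : ∫ θ in (0 : ℝ)..2 * Real.pi, kp ρ θ = 1 := by
    rw [Real.circleAverage_def] at hpk
    have e3 : ∀ θ : ℝ, (fun z : ℂ => (poissonKernel 0 (ρ : ℂ) • fun _ : ℂ => (1 : ℂ)) z)
        (circleMap 0 1 θ) = ((2 * Real.pi * kp ρ θ : ℝ) : ℂ) := by
      intro θ
      simp only [Pi.smul_apply', e1, Complex.real_smul, mul_one]
    have e4 : ∫ θ in (0 : ℝ)..2 * Real.pi, (poissonKernel 0 (ρ : ℂ) • fun _ : ℂ => (1 : ℂ))
        (circleMap 0 1 θ) = ∫ θ in (0 : ℝ)..2 * Real.pi, ((2 * Real.pi * kp ρ θ : ℝ) : ℂ) := by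
      apply intervalIntegral.integral_congr
      intro θ _
      exact e3 θ
    rw [e4, intervalIntegral.integral_ofReal, intervalIntegral.integral_const_mul] at hpk
    have h5 : (2 * Real.pi)⁻¹ * (2 * Real.pi * ∫ θ in (0 : ℝ)..2 * Real.pi, kp ρ θ) = 1 := by
      have := congrArg Complex.re hpk
      simpa using this
    rwa [← mul_assoc, inv_mul_cancel₀ (by positivity), one_mul] at h5
  unfold KP
  rw [integral_indicator measurableSet_Ioc, ← intervalIntegral.integral_of_le pi_le]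
  have h6 := hper.intervalIntegral_add_eq (-Real.pi) 0
  rw [zero_add] at h6
  rw [← e2, ← h6]
  congr 1
  ring

lemma KP_tail {δ : ℝ} (hδ : 0 < δ) :
    Tendsto (fun ρ : ℝ => ∫ t in {t | δ ≤ |t|}, KP ρ t) (𝓝[<] 1) (𝓝 0) := by
  have hlim : Tendsto (fun ρ : ℝ => (1 - ρ) * (Real.pi ^ 2 / δ ^ 2) * (2 * Real.pi)) (𝓝[<] 1)
      (𝓝 ((1 - 1) * (Real.pi ^ 2 / δ ^ 2) * (2 * Real.pi))) := by
    apply Tendsto.mono_left _ nhdsWithin_le_nhds
    exact Continuous.tendsto (by fun_prop) 1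
  rw [sub_self, zero_mul, zero_mul] at hlim
  have hmem : Ioo (1 / 2 : ℝ) 1 ∈ 𝓝[<] (1 : ℝ) := Ioo_mem_nhdsLT (by norm_num)
  apply squeeze_zero' (eventually_of_mem hmem _) (eventually_of_mem hmem _) hlim
  · intro ρ hρ
    apply integral_nonneg
    intro t
    unfold KP
    exact indicator_nonneg (fun t _ => kp_nonneg (by linarith [hρ.1]) hρ.2 t) t
  · intro ρ hρ
    have h0 : 0 < ρ := by linarith [hρ.1]
    have h1 := hρ.2
    have hT : MeasurableSet {t : ℝ | δ ≤ |t|} :=
      measurableSet_le measurable_const continuous_abs.measurable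
    have hG : Integrable (indicator (Ioc (-Real.pi) Real.pi)
        (fun _ : ℝ => (1 - ρ) * (Real.pi ^ 2 / δ ^ 2))) := by
      rw [integrable_indicator_iff measurableSet_Ioc]
      exact integrableOn_const (by simp)
    have hc0 : 0 ≤ (1 - ρ) * (Real.pi ^ 2 / δ ^ 2) := by
      have : 0 < 1 - ρ := by linarith
      positivity
    calc ∫ t in {t | δ ≤ |t|}, KP ρ t
        ≤ ∫ t in {t | δ ≤ |t|}, indicator (Ioc (-Real.pi) Real.pi)
            (fun _ : ℝ => (1 - ρ) * (Real.pi ^ 2 / δ ^ 2)) t := by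
          apply setIntegral_mono_on (KP_int h0 h1).integrableOn hG.integrableOn hT
          intro t ht
          unfold KP
          by_cases hm : t ∈ Ioc (-Real.pi) Real.pi
          · rw [indicator_of_mem hm, indicator_of_mem hm]
            have h2 : |t| ≤ Real.pi := abs_le.mpr ⟨hm.1.le, hm.2⟩
            have h3 := Real.cos_le_one_sub_mul_cos_sq h2
            have h4 : δ ^ 2 ≤ t ^ 2 := by
              rw [← sq_abs t]
              exact pow_le_pow_left₀ hδ.le ht 2
            have hden : 2 * δ ^ 2 / Real.pi ^ 2 ≤ 1 - 2 * ρ * Real.cos t + ρ ^ 2 := by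
              have h5 : 1 - 2 * ρ * Real.cos t + ρ ^ 2 = (1 - ρ) ^ 2 + 2 * ρ * (1 - Real.cos t) := by
                ring
              rw [h5]
              have h6 : 2 * δ ^ 2 / Real.pi ^ 2 ≤ 1 - Real.cos t := by
                have h7 : 2 / Real.pi ^ 2 * t ^ 2 ≤ 1 - Real.cos t := by linarith
                have h8 : 2 * δ ^ 2 / Real.pi ^ 2 = 2 / Real.pi ^ 2 * δ ^ 2 := by ring
                rw [h8]
                exact (mul_le_mul_of_nonneg_left h4 (by positivity)).trans h7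
              have h9 : 0 ≤ 1 - Real.cos t := by linarith [Real.cos_le_one t]
              nlinarith [sq_nonneg (1 - ρ), hρ.1]
            unfold kp
            have hpi := Real.pi_pos
            have hd : 0 < 2 * δ ^ 2 / Real.pi ^ 2 := by positivity
            calc 1 / (2 * Real.pi) * ((1 - ρ ^ 2) / (1 - 2 * ρ * Real.cos t + ρ ^ 2))
                ≤ 1 / (2 * Real.pi) * ((1 - ρ ^ 2) / (2 * δ ^ 2 / Real.pi ^ 2)) := by
                  apply mul_le_mul_of_nonneg_left _ (by positivity)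
                  apply div_le_div_of_nonneg_left (by nlinarith) hd hden
              _ ≤ 1 * ((2 * (1 - ρ)) / (2 * δ ^ 2 / Real.pi ^ 2)) := by
                  have hnum : 0 ≤ 1 - ρ ^ 2 := by nlinarith
                  apply mul_le_mul
                  · rw [div_le_one (by positivity)]
                    linarith [Real.pi_gt_three]
                  · apply div_le_div_of_nonneg_right _ hd.le
                    nlinarith
                  · positivity
                  · norm_num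
              _ = (1 - ρ) * (Real.pi ^ 2 / δ ^ 2) := by
                  field_simp
          · rw [indicator_of_notMem hm, indicator_of_notMem hm]
      _ ≤ ∫ t, indicator (Ioc (-Real.pi) Real.pi) (fun _ : ℝ => (1 - ρ) * (Real.pi ^ 2 / δ ^ 2)) t :=
          setIntegral_le_integral hG (ae_of_all _ fun t => indicator_nonneg (fun _ _ => hc0) t)
      _ = (1 - ρ) * (Real.pi ^ 2 / δ ^ 2) * (2 * Real.pi) := by
          rw [integral_indicator measurableSet_Ioc, setIntegral_const]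
          have : (volume : Measure ℝ).real (Ioc (-Real.pi) Real.pi) = 2 * Real.pi := by
            rw [Real.volume_real_Ioc_of_le pi_le]
            ring
          rw [this, smul_eq_mul]
          ring

lemma KP_low {C ρ : ℝ} (h0 : 1 / 2 < ρ) (h1 : ρ < 1) (hC : C * (1 - ρ) < Real.pi) {t : ℝ}
    (ht : |t| ≤ C * (1 - ρ)) : (1 / (2 * Real.pi * (1 + C ^ 2))) / (1 - ρ) ≤ KP ρ t := by
  have hs : 0 < 1 - ρ := by linarith
  have hρ0 : 0 < ρ := by linarith
  have hm : t ∈ Ioc (-Real.pi) Real.pi := by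
    have := abs_le.mp ht
    constructor <;> linarith
  unfold KP
  rw [indicator_of_mem hm]
  have h2 : t ^ 2 ≤ (C * (1 - ρ)) ^ 2 := by
    rw [← sq_abs t]
    exact pow_le_pow_left₀ (abs_nonneg _) ht 2
  have h3 := Real.one_sub_sq_div_two_le_cos (x := t)
  have hden : 1 - 2 * ρ * Real.cos t + ρ ^ 2 ≤ (1 + C ^ 2) * (1 - ρ) ^ 2 := by
    have h5 : 1 - 2 * ρ * Real.cos t + ρ ^ 2 = (1 - ρ) ^ 2 + 2 * ρ * (1 - Real.cos t) := by
      ring
    rw [h5]
    have h6 : 1 - Real.cos t ≤ t ^ 2 / 2 := by linarith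
    have h7 : 2 * ρ * (1 - Real.cos t) ≤ 2 * 1 * (t ^ 2 / 2) := by
      apply mul_le_mul (by linarith) h6 (by linarith [Real.cos_le_one t]) (by norm_num)
    nlinarith
  have hd := den_pos hρ0 h1 t
  have hpi := Real.pi_pos
  unfold kp
  calc (1 / (2 * Real.pi * (1 + C ^ 2))) / (1 - ρ)
      = 1 / (2 * Real.pi) * ((1 - ρ) / ((1 + C ^ 2) * (1 - ρ) ^ 2)) := by field_simp
    _ ≤ 1 / (2 * Real.pi) * ((1 - ρ ^ 2) / ((1 + C ^ 2) * (1 - ρ) ^ 2)) := by
        apply mul_le_mul_of_nonneg_left _ (by positivity)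
        apply div_le_div_of_nonneg_right _ (by positivity)
        nlinarith
    _ ≤ 1 / (2 * Real.pi) * ((1 - ρ ^ 2) / (1 - 2 * ρ * Real.cos t + ρ ^ 2)) := by
        apply mul_le_mul_of_nonneg_left _ (by positivity)
        apply div_le_div_of_nonneg_left (by nlinarith) hd hden

theorem contP {α : ℝ} (hα : 0 < α) {f : ℝ → ℝ} (hb : Bdd f) (hf : AEMeasurable f)
    (hr : limsup (fun ρ : ℝ => ENNReal.ofReal (α / (1 - ρ)) * rDist α f (P ρ f)) (𝓝[<] 1) < ⊤) :
    Continuous f := by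
  obtain ⟨M, hM⟩ := hb
  have hmem : ∀ᶠ ρ : ℝ in 𝓝[<] 1, ρ ∈ Ioo (1 / 2 : ℝ) 1 := Ioo_mem_nhdsLT (by norm_num)
  have hs : Tendsto (fun ρ : ℝ => 1 - ρ) (𝓝[<] 1) (𝓝 0) := by
    have : Tendsto (fun ρ : ℝ => 1 - ρ) (𝓝[<] 1) (𝓝 (1 - 1)) :=
      Tendsto.mono_left (Continuous.tendsto (by fun_prop) 1) nhdsWithin_le_nhds
    rwa [sub_self] at this
  refine key (l := 𝓝[<] (1 : ℝ)) hα hM hf KP (fun ρ => 1 - ρ) ?_ hs ?_ ?_ ?_
    (fun δ hδ => KP_tail hδ) ?_ (fun ρ => P ρ f) (Eventually.of_forall fun ρ x => P_eq ρ f x) hr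
  · filter_upwards [hmem] with ρ hρ
    linarith [hρ.2]
  · filter_upwards [hmem] with ρ hρ
    intro t
    unfold KP
    exact indicator_nonneg (fun t _ => kp_nonneg (by linarith [hρ.1]) hρ.2 t) t
  · filter_upwards [hmem] with ρ hρ using KP_int (by linarith [hρ.1]) hρ.2
  · filter_upwards [hmem] with ρ hρ using KP_mass (by linarith [hρ.1]) hρ.2
  · intro C hC
    refine ⟨1 / (2 * Real.pi * (1 + C ^ 2)), by have := Real.pi_pos; positivity, ?_⟩
    have h1 : ∀ᶠ ρ : ℝ in 𝓝[<] 1, C * (1 - ρ) < Real.pi := by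
      have : Tendsto (fun ρ : ℝ => C * (1 - ρ)) (𝓝[<] 1) (𝓝 (C * 0)) := hs.const_mul _
      rw [mul_zero] at this
      exact this.eventually_lt_const Real.pi_pos
    filter_upwards [hmem, h1] with ρ hρ h2
    intro t ht
    exact KP_low hρ.1 hρ.2 h2 ht

end Poisson

/-! ### de la Vallée-Poussin -/

section Vallee

def cc (n : ℕ) : ℝ := ∏ i ∈ Finset.range n, (2 * (i : ℝ) + 1) / (2 * i + 2)

lemma cc_pos (n : ℕ) : 0 < cc n := Finset.prod_pos fun i _ => by positivity

lemma cc_succ (n : ℕ) : cc (n + 1) = cc n * ((2 * (n : ℝ) + 1) / (2 * n + 2)) := by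
  unfold cc
  rw [Finset.prod_range_succ]

lemma fact_cc (n : ℕ) : ((2 * n)! : ℝ) = 4 ^ n * cc n * (n ! : ℝ) ^ 2 := by
  induction n with
  | zero => simp [cc]
  | succ n ih =>
    rw [show 2 * (n + 1) = 2 * n + 1 + 1 by ring, Nat.factorial_succ, Nat.factorial_succ,
      Nat.factorial_succ, cc_succ]
    push_cast
    rw [ih]
    field_simp
    ring

lemma cc_lower {n : ℕ} (hn : 0 < n) : 1 / (2 * (n : ℝ)) ≤ cc n := by
  induction n, hn using Nat.le_induction with
  | base => simp [cc]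
  | succ n hn ih =>
    have hn' : (0 : ℝ) < n := by exact_mod_cast hn
    rw [cc_succ]
    calc 1 / (2 * ((n + 1 : ℕ) : ℝ)) ≤ 1 / (2 * (n : ℝ)) * ((2 * (n : ℝ) + 1) / (2 * n + 2)) := by
          push_cast
          rw [div_mul_div_comm, one_mul, div_le_div_iff₀ (by positivity) (by positivity)]
          nlinarith
      _ ≤ _ := mul_le_mul_of_nonneg_right ih (by positivity)

lemma cc_upper (n : ℕ) : cc n ^ 2 ≤ 1 / (2 * (n : ℝ) + 1) := by
  induction n with
  | zero => simp [cc]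
  | succ n ih =>
    rw [cc_succ, mul_pow]
    calc cc n ^ 2 * ((2 * (n : ℝ) + 1) / (2 * n + 2)) ^ 2
        ≤ 1 / (2 * (n : ℝ) + 1) * ((2 * (n : ℝ) + 1) / (2 * n + 2)) ^ 2 :=
          mul_le_mul_of_nonneg_right ih (by positivity)
      _ = (2 * (n : ℝ) + 1) / (2 * n + 2) ^ 2 := by field_simp
      _ ≤ 1 / (2 * ((n + 1 : ℕ) : ℝ) + 1) := by
          push_cast
          rw [div_le_div_iff₀ (by positivity) (by positivity)]
          nlinarith

def kv (n : ℕ) (t : ℝ) : ℝ := 1 / (2 * Real.pi * cc n) * Real.cos (t / 2) ^ (2 * n)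

def KV (n : ℕ) : ℝ → ℝ := indicator (Ioc (-Real.pi) Real.pi) (kv n)

lemma kv_eq (n : ℕ) (t : ℝ) : ((n ! : ℝ) ^ 2 / (2 * Real.pi * (2 * n)!)) *
    (2 * Real.cos (t / 2)) ^ (2 * n) = kv n t := by
  unfold kv
  rw [fact_cc, mul_pow, pow_mul 2]
  have h1 := cc_pos n
  have h2 := Real.pi_pos
  have h3 : (0 : ℝ) < n ! := by positivity
  norm_num
  field_simp

lemma V_eq (n : ℕ) (f : ℝ → ℝ) (x : ℝ) : V n f x = ∫ t, f (x - t) * KV n t := by
  unfold V KV
  rw [intervalIntegral.integral_of_le pi_le, ← integral_const_mul, ← integral_indicator measurableSet_Ioc]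
  apply integral_congr_ae
  refine ae_of_all _ fun t => ?_
  by_cases ht : t ∈ Ioc (-Real.pi) Real.pi
  · simp only [indicator_of_mem ht]
    rw [← kv_eq]
    ring
  · simp only [indicator_of_notMem ht, mul_zero]

lemma kv_cont (n : ℕ) : Continuous (kv n) := by unfold kv; fun_prop

lemma kv_nonneg (n : ℕ) (t : ℝ) : 0 ≤ kv n t := by
  unfold kv
  have h1 := cc_pos n
  have h2 := Real.pi_pos
  rw [pow_mul]
  positivity

lemma KV_int (n : ℕ) : Integrable (KV n) := by
  unfold KV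
  rw [integrable_indicator_iff measurableSet_Ioc]
  exact (kv_cont n).integrableOn_Ioc

lemma KV_mass (n : ℕ) : ∫ t, KV n t = 1 := by
  unfold KV
  rw [integral_indicator measurableSet_Ioc, ← intervalIntegral.integral_of_le pi_le]
  unfold kv
  rw [intervalIntegral.integral_const_mul]
  have h1 := intervalIntegral.integral_comp_div (a := -Real.pi) (b := Real.pi)
    (fun u => Real.cos u ^ (2 * n)) (two_ne_zero (α := ℝ))
  rw [h1]
  have h2 : ∫ u in (-Real.pi / 2)..(Real.pi / 2), Real.cos u ^ (2 * n)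
      = ∫ u in (0 : ℝ)..Real.pi, Real.sin u ^ (2 * n) := by
    have h3 := intervalIntegral.integral_comp_add_right (a := -Real.pi / 2) (b := Real.pi / 2)
      (fun u => Real.sin u ^ (2 * n)) (Real.pi / 2)
    simp only [Real.sin_add_pi_div_two] at h3
    rw [h3]
    congr 1 <;> ring
  rw [h2, integral_sin_pow_even, smul_eq_mul]
  have h4 := cc_pos n
  have h5 := Real.pi_pos
  show 1 / (2 * Real.pi * cc n) * (2 * (Real.pi * cc n)) = 1
  field_simp

lemma KV_tail {δ : ℝ} (hδ : 0 < δ) :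
    Tendsto (fun n : ℕ => ∫ t in {t | δ ≤ |t|}, KV n t) atTop (𝓝 0) := by
  have hpi := Real.pi_pos
  set q : ℝ := max (1 - δ ^ 2 / (2 * Real.pi ^ 2)) 0 with hq
  have hq0 : 0 ≤ q := le_max_right _ _
  have hq1 : q < 1 := by
    rw [hq]
    apply max_lt _ one_pos
    have : 0 < δ ^ 2 / (2 * Real.pi ^ 2) := by positivity
    linarith
  have hlim : Tendsto (fun n : ℕ => 2 * ((n : ℝ) * q ^ n)) atTop (𝓝 (2 * 0)) :=
    (tendsto_self_mul_const_pow_of_lt_one hq0 hq1).const_mul 2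
  rw [mul_zero] at hlim
  apply squeeze_zero' (eventually_of_mem (Ioi_mem_atTop 0) _)
    (eventually_of_mem (Ioi_mem_atTop 0) _) hlim
  · intro n _
    apply integral_nonneg
    intro t
    unfold KV
    exact indicator_nonneg (fun t _ => kv_nonneg n t) t
  · intro n hn
    have hn0 : 0 < n := hn
    have hn' : (0 : ℝ) < n := by exact_mod_cast hn0
    have hT : MeasurableSet {t : ℝ | δ ≤ |t|} :=
      measurableSet_le measurable_const continuous_abs.measurable
    have hG : Integrable (indicator (Ioc (-Real.pi) Real.pi)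
        (fun _ : ℝ => n / Real.pi * q ^ n)) := by
      rw [integrable_indicator_iff measurableSet_Ioc]
      exact integrableOn_const (by simp)
    have hc0 : 0 ≤ n / Real.pi * q ^ n := by positivity
    calc ∫ t in {t | δ ≤ |t|}, KV n t
        ≤ ∫ t in {t | δ ≤ |t|}, indicator (Ioc (-Real.pi) Real.pi)
            (fun _ : ℝ => n / Real.pi * q ^ n) t := by
          apply setIntegral_mono_on (KV_int n).integrableOn hG.integrableOn hT
          intro t ht
          unfold KV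
          by_cases hm : t ∈ Ioc (-Real.pi) Real.pi
          · rw [indicator_of_mem hm, indicator_of_mem hm]
            have h2 : |t / 2| ≤ Real.pi := by
              rw [abs_div, abs_two]
              have : |t| ≤ Real.pi := abs_le.mpr ⟨hm.1.le, hm.2⟩
              linarith
            have h3 := Real.cos_le_one_sub_mul_cos_sq h2
            have h4 : δ ^ 2 ≤ t ^ 2 := by
              rw [← sq_abs t]
              exact pow_le_pow_left₀ hδ.le ht 2
            have h5 : Real.cos (t / 2) ≤ q := by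
              refine le_trans (h3.trans ?_) (le_max_left _ _)
              have h6 : 2 / Real.pi ^ 2 * (t / 2) ^ 2 = t ^ 2 / (2 * Real.pi ^ 2) := by
                field_simp
              rw [h6]
              have := div_le_div_of_nonneg_right h4 (show 0 ≤ 2 * Real.pi ^ 2 by positivity)
              linarith
            have h6 : 0 ≤ Real.cos (t / 2) :=
              Real.cos_nonneg_of_neg_pi_div_two_le_of_le (by linarith [hm.1]) (by linarith [hm.2])
            unfold kv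
            have h7 := cc_lower hn0
            have h8 := cc_pos n
            apply mul_le_mul
            · rw [div_le_div_iff₀ (by positivity) hpi]
              have h9 : 1 ≤ 2 * n * cc n := by
                rw [div_le_iff₀ (by positivity)] at h7
                linarith
              nlinarith
            · rw [two_mul, pow_add]
              calc Real.cos (t / 2) ^ n * Real.cos (t / 2) ^ n
                  ≤ Real.cos (t / 2) ^ n * 1 := by
                    apply mul_le_mul_of_nonneg_left _ (by positivity)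
                    exact pow_le_one₀ h6 (Real.cos_le_one _)
                _ = Real.cos (t / 2) ^ n := mul_one _
                _ ≤ q ^ n := pow_le_pow_left₀ h6 h5 n
            · positivity
            · positivity
          · rw [indicator_of_notMem hm, indicator_of_notMem hm]
      _ ≤ ∫ t, indicator (Ioc (-Real.pi) Real.pi) (fun _ : ℝ => n / Real.pi * q ^ n) t :=
          setIntegral_le_integral hG (ae_of_all _ fun t => indicator_nonneg (fun _ _ => hc0) t)
      _ = 2 * ((n : ℝ) * q ^ n) := by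
          rw [integral_indicator measurableSet_Ioc, setIntegral_const]
          have : (volume : Measure ℝ).real (Ioc (-Real.pi) Real.pi) = 2 * Real.pi := by
            rw [Real.volume_real_Ioc_of_le pi_le]
            ring
          rw [this, smul_eq_mul]
          field_simp

lemma KV_low {C : ℝ} {n : ℕ} (hn : 0 < n) (hC : C ^ 2 ≤ 4 * n) (hC2 : C * (√n)⁻¹ < Real.pi)
    {t : ℝ} (ht : |t| ≤ C * (√n)⁻¹) :
    (Real.exp (-(C ^ 2 / 2)) / (2 * Real.pi)) / (√n)⁻¹ ≤ KV n t := by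
  have hn' : (0 : ℝ) < n := by exact_mod_cast hn
  have hs : 0 < √(n : ℝ) := Real.sqrt_pos.mpr hn'
  have hpi := Real.pi_pos
  have hm : t ∈ Ioc (-Real.pi) Real.pi := by
    have := abs_le.mp ht
    constructor <;> linarith
  have h2 : t ^ 2 ≤ C ^ 2 / n := by
    have h3 : t ^ 2 ≤ (C * (√n)⁻¹) ^ 2 := by
      rw [← sq_abs t]
      exact pow_le_pow_left₀ (abs_nonneg _) ht 2
    rw [mul_pow, inv_pow, Real.sq_sqrt hn'.le] at h3
    rwa [div_eq_mul_inv]
  set y : ℝ := C ^ 2 / (8 * n) with hy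
  have hy0 : 0 ≤ y := by positivity
  have hy1 : y ≤ 1 / 2 := by
    rw [hy, div_le_div_iff₀ (by positivity) (by norm_num)]
    linarith
  have hcos : 1 - y ≤ Real.cos (t / 2) := by
    have h3 := Real.one_sub_sq_div_two_le_cos (x := t / 2)
    have h4 : (t / 2) ^ 2 / 2 ≤ y := by
      have : C ^ 2 / (n : ℝ) = 8 * y := by rw [hy]; field_simp
      rw [this] at h2
      nlinarith
    linarith
  have hexp : Real.exp (-(2 * y)) ≤ 1 - y := by
    rw [Real.exp_neg, inv_le_comm₀ (Real.exp_pos _) (by linarith)]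
    have h5 := Real.add_one_le_exp (2 * y)
    refine le_trans ?_ h5
    rw [inv_le_comm₀ (by linarith) (by linarith), inv_le_iff_one_le_mul₀ (by linarith)]
    nlinarith
  have hpow : Real.exp (-(C ^ 2 / 2)) ≤ Real.cos (t / 2) ^ (2 * n) := by
    calc Real.exp (-(C ^ 2 / 2)) = Real.exp (-(2 * y)) ^ (2 * n) := by
          rw [← Real.exp_nat_mul]
          congr 1
          rw [hy]
          push_cast
          field_simp
          ring
      _ ≤ (1 - y) ^ (2 * n) := pow_le_pow_left₀ (Real.exp_pos _).le hexp _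
      _ ≤ _ := pow_le_pow_left₀ (by linarith) hcos _
  unfold KV
  rw [indicator_of_mem hm]
  unfold kv
  have h8 := cc_pos n
  have h9 : √n ≤ 1 / cc n := by
    rw [le_div_iff₀ h8]
    have h10 : (√n * cc n) ^ 2 ≤ 1 := by
      rw [mul_pow, Real.sq_sqrt hn'.le]
      have := cc_upper n
      rw [le_div_iff₀ (by positivity)] at this
      nlinarith [sq_nonneg (cc n)]
    exact (sq_le_one_iff₀ (by positivity)).mp h10
  calc (Real.exp (-(C ^ 2 / 2)) / (2 * Real.pi)) / (√n)⁻¹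
      = √n / (2 * Real.pi) * Real.exp (-(C ^ 2 / 2)) := by
        rw [div_inv_eq_mul]; ring
    _ ≤ 1 / (2 * Real.pi * cc n) * Real.cos (t / 2) ^ (2 * n) := by
        apply mul_le_mul _ hpow (Real.exp_pos _).le (by positivity)
        calc √n / (2 * Real.pi) ≤ (1 / cc n) / (2 * Real.pi) :=
              div_le_div_of_nonneg_right h9 (by positivity)
          _ = 1 / (2 * Real.pi * cc n) := by field_simp

theorem contV {α : ℝ} (hα : 0 < α) {f : ℝ → ℝ} (hb : Bdd f) (hf : AEMeasurable f)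
    (hr : limsup (fun n : ℕ => ENNReal.ofReal (α * √n) * rDist α f (V n f)) atTop < ⊤) :
    Continuous f := by
  obtain ⟨M, hM⟩ := hb
  have hpos : ∀ᶠ n : ℕ in atTop, 0 < n := eventually_gt_atTop 0
  have hs : Tendsto (fun n : ℕ => (√(n : ℝ))⁻¹) atTop (𝓝 0) :=
    tendsto_inv_atTop_zero.comp (Real.tendsto_sqrt_atTop.comp tendsto_natCast_atTop_atTop)
  refine key (l := (atTop : Filter ℕ)) hα hM hf KV (fun n => (√(n : ℝ))⁻¹) ?_ hs ?_ ?_ ?_
    (fun δ hδ => KV_tail hδ) ?_ (fun n => V n f) (Eventually.of_forall fun n x => V_eq n f x) ?_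
  · filter_upwards [hpos] with n hn
    have hn' : (0 : ℝ) < n := by exact_mod_cast hn
    positivity
  · refine Eventually.of_forall fun n t => ?_
    unfold KV
    exact indicator_nonneg (fun t _ => kv_nonneg n t) t
  · exact Eventually.of_forall fun n => KV_int n
  · exact Eventually.of_forall fun n => KV_mass n
  · intro C hC
    refine ⟨Real.exp (-(C ^ 2 / 2)) / (2 * Real.pi), by have := Real.pi_pos; positivity, ?_⟩
    have h1 : ∀ᶠ n : ℕ in atTop, C * (√(n : ℝ))⁻¹ < Real.pi := by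
      have : Tendsto (fun n : ℕ => C * (√(n : ℝ))⁻¹) atTop (𝓝 (C * 0)) := hs.const_mul _
      rw [mul_zero] at this
      exact this.eventually_lt_const Real.pi_pos
    have h2 : ∀ᶠ n : ℕ in atTop, C ^ 2 ≤ 4 * (n : ℝ) :=
      (tendsto_natCast_atTop_atTop.const_mul_atTop (by norm_num : (0 : ℝ) < 4)).eventually_ge_atTop _
    filter_upwards [hpos, h1, h2] with n hn h3 h4
    intro t ht
    exact KV_low hn h4 h3 ht
  · refine lt_of_le_of_lt (le_of_eq ?_) hr
    congr 1
    funext n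
    rw [div_inv_eq_mul]

end Vallee

/-! ### The constants -/

/-- `c_W^*` -/
def cW (α : ℝ) : ℝ≥0∞ := sSup {c | c ≠ ⊤ ∧ ∀ f : ℝ → ℝ, Bdd f → AEMeasurable f →
  limsup (fun n : ℕ => ENNReal.ofReal (α * √n) * rDist α f (W n f)) atTop < c → Continuous f}

/-- `c_P^*` -/
def cP (α : ℝ) : ℝ≥0∞ := sSup {c | c ≠ ⊤ ∧ ∀ f : ℝ → ℝ, Bdd f → AEMeasurable f →
  Function.Periodic f (2 * Real.pi) →
  limsup (fun ρ : ℝ => ENNReal.ofReal (α / (1 - ρ)) * rDist α f (P ρ f)) (𝓝[<] 1) < c →
  Continuous f}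

/-- `c_V^*` -/
def cV (α : ℝ) : ℝ≥0∞ := sSup {c | c ≠ ⊤ ∧ ∀ f : ℝ → ℝ, Bdd f → AEMeasurable f →
  Function.Periodic f (2 * Real.pi) →
  limsup (fun n : ℕ => ENNReal.ofReal (α * √n) * rDist α f (V n f)) atTop < c → Continuous f}

lemma sSup_top {p : ℝ≥0∞ → Prop} (h : ∀ c, c ≠ ⊤ → p c) : sSup {c | c ≠ ⊤ ∧ p c} = ⊤ := by
  rw [sSup_eq_top]
  intro b hb
  obtain ⟨c, hc1, hc2⟩ := exists_between hb
  exact ⟨c, ⟨hc2.ne, h c hc2.ne⟩, hc1⟩

/-- **All three constants are infinite.** For every `α > 0`, `c_W^* = c_P^* = c_V^* = ∞`. More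
precisely, if `f` is a bounded Lebesgue measurable function and one of the three upper limits is
finite, then `f` is continuous (for `P` and `V` periodicity of `f` is not even needed). -/
theorem result (α : ℝ) (hα : 0 < α) :
    (cW α = ⊤ ∧ cP α = ⊤ ∧ cV α = ⊤) ∧
    ∀ f : ℝ → ℝ, Bdd f → AEMeasurable f →
      (limsup (fun n : ℕ => ENNReal.ofReal (α * √n) * rDist α f (W n f)) atTop < ⊤ →
        Continuous f) ∧
      (limsup (fun ρ : ℝ => ENNReal.ofReal (α / (1 - ρ)) * rDist α f (P ρ f)) (𝓝[<] 1) < ⊤ →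
        Continuous f) ∧
      (limsup (fun n : ℕ => ENNReal.ofReal (α * √n) * rDist α f (V n f)) atTop < ⊤ →
        Continuous f) := by
  refine ⟨⟨?_, ?_, ?_⟩, fun f hb hf => ⟨contW hα hb hf, contP hα hb hf, contV hα hb hf⟩⟩
  · exact sSup_top fun c _ f hb hf h => contW hα hb hf (h.trans_le le_top)
  · exact sSup_top fun c _ f hb hf _ h => contP hα hb hf (h.trans_le le_top)
  · exact sSup_top fun c _ f hb hf _ h => contV hα hb hf (h.trans_le le_top)

end Pool.Agent.Results.MP_fbd0a7_an.ContinuityConstants
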